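import Pool.Agent.Lib.MP_02fb6a_co.Sym8

set_option autoImplicit false

namespace Pool.Agent.Results.MP_02fb6a_co.AbelianLift

open Pool.Agent.MP02fb6a

/-- Q1 holds (1) for equiangular tight frames whose Gram matrix is diagonally similar to a linear
combination of pairwise commuting matrices with entries `0` or `N`-th roots of unity (`N` fixed),
the family being closed under formal adjoints; (2) for equiangular tight frames whose symmetry
group acts multiplicity-free. -/
theorem result :
    (∀ N d n : ℕ, 0 < N → 0 < d → {p : ℕ | HasAbelianETF N d n p}.Infinite →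
      HasComplexETF d n) ∧
    (∀ d n : ℕ, 0 < d → {p : ℕ | HasMultFreeETF d n p}.Infinite → HasComplexETF d n) :=
  ⟨fun _ _ _ hN hd h => abelian hN hd h, fun _ _ hd h => multFree hd h⟩

end Pool.Agent.Results.MP_02fb6a_co.AbelianLift
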