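import Pool.Agent.Lib.MP_02fb6a_co.Unitary

set_option autoImplicit false

namespace Pool.Agent.Results.MP_02fb6a_co.GapBound

open Pool.Agent.MP02fb6a

/-- A gap below Gerzon's bound: outside an explicit finite set of characteristics a `d × n`
equiangular tight frame in a unitary geometry over a field with `q ^ 2` elements has
`n ≤ d ^ 2 - d + 1`, and the same with `d` replaced by `n - d`. -/
theorem result (d n p : ℕ) (hd : 0 < d) (h : HasUnitaryETF d n p) :
    (¬ (p : ℤ) ∣ n * (n - 1) * (d - 1) * (d ^ 2 - n) → n + d ≤ d ^ 2 + 1) ∧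
    (¬ (p : ℤ) ∣ n * (n - 1) * (n - d) * (n - d - 1) * ((n - d) ^ 2 - n) →
      n + (n - d) ≤ (n - d) ^ 2 + 1) :=
  h.gap hd

end Pool.Agent.Results.MP_02fb6a_co.GapBound
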