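import Pool.Agent.Lib.MP_02fb6a_co.Swap8

set_option autoImplicit false

namespace Pool.Agent.Results.MP_02fb6a_co.OnePrime

open Pool.Agent.MP02fb6a

/-- A single large characteristic suffices for a complex equiangular tight frame: (1) if the `N`-th
powers of all triple products coincide and `p > n ^ (8 N)`; (2) if the `M`-th powers of all products
of the triple products through a pair lie in `F_q` and `p > n ^ (16 n M)`; (3) if any two vectors
are exchanged by a symmetry or fixed by an antisymmetry and `p > n ^ (16 n)`. -/
theorem result :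
    (∀ N d n p : ℕ, 0 < N → 0 < d → n ^ (8 * N) < p → HasRootETF N d n p → HasComplexETF d n) ∧
    (∀ M d n p : ℕ, 0 < M → 0 < d → n ^ (16 * n * M) < p → HasPairETF M d n p →
      HasComplexETF d n) ∧
    (∀ d n p : ℕ, 0 < d → n ^ (16 * n) < p → HasSwapETF d n p → HasComplexETF d n) :=
  ⟨fun _ _ _ _ hN hd hp h => root hN hd hp h, fun _ _ _ _ hM hd hp h => pair hM hd hp h,
    fun _ _ _ hd hp h => swap hd hp h⟩

end Pool.Agent.Results.MP_02fb6a_co.OnePrime
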