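import Pool.Agent.Lib.MP_02fb6a_co.Small

set_option autoImplicit false

namespace Pool.Agent.Results.MP_02fb6a_co.SmallCodim

open Pool.Agent.MP02fb6a

/-- The answer to Q1 is yes for all pairs `(d, n)` with `min (d, n - d) ≤ 3`. -/
theorem result (d n : ℕ) (hd : 0 < d) (hs : d ≤ 3 ∨ n ≤ d + 3)
    (h : {p : ℕ | HasUnitaryETF d n p}.Infinite) : HasComplexETF d n :=
  small hd hs h

end Pool.Agent.Results.MP_02fb6a_co.SmallCodim
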